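import Pool.Agent.T2h60.SF.Sub

/-!
# Semidirect products with a system of supports: amalgamated products
-/

set_option autoImplicit false

namespace Pool.Agent.T2h60.SF

open Pool.Agent.Y483.PW Pool.Agent.Y110.FJ Pointwise
open Pool.Agent.Y462.SS (Closed Wr)

variable {C : ∀ (G : Type) [Group G], Prop}

section

variable {Γ N V : Type} [Group Γ] [Group N] [MulAction Γ V] (s : Sys Γ N V)

theorem smul_diff {Δ : Subgroup Γ} {W : Set V} (h : ∀ δ ∈ Δ, δ • W = W) {T : Set V}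
    (hT : ∀ δ ∈ Δ, δ • T = T) : ∀ δ ∈ Δ, δ • (W ∩ Tᶜ) = W ∩ Tᶜ := by
  intro δ hδ
  rw [Set.smul_set_inter, Set.smul_set_compl, h δ hδ, hT δ hδ]

/-- the elements of `N` as elements of the subgroup -/
def jN {Δ : Subgroup Γ} {W : Set V} (h : ∀ δ ∈ Δ, δ • W = W) : N →* sub s Δ W h where
  toFun n := ⟨SemidirectProduct.inl (s.e W n), by
    refine ⟨?_, Δ.one_mem⟩
    rw [SemidirectProduct.left_inl, s.inter, Set.inter_self]⟩
  map_one' := by
    apply Subtype.ext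
    change (SemidirectProduct.inl (s.e W 1) : s.G) = 1
    rw [map_one, map_one]
  map_mul' a b := by
    apply Subtype.ext
    change (SemidirectProduct.inl (s.e W (a * b)) : s.G) =
      SemidirectProduct.inl (s.e W a) * SemidirectProduct.inl (s.e W b)
    rw [map_mul, map_mul]

/-- the elements of `Δ` as elements of the subgroup -/
def jD {Δ : Subgroup Γ} {W : Set V} (h : ∀ δ ∈ Δ, δ • W = W) : Δ →* sub s Δ W h where
  toFun δ := ⟨SemidirectProduct.inr (δ : Γ), by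
    refine ⟨?_, δ.2⟩
    rw [SemidirectProduct.left_inr, map_one]⟩
  map_one' := by
    apply Subtype.ext
    change (SemidirectProduct.inr ((1 : Δ) : Γ) : s.G) = 1
    rw [Subgroup.coe_one, map_one]
  map_mul' a b := by
    apply Subtype.ext
    change (SemidirectProduct.inr ((a * b : Δ) : Γ) : s.G) =
      SemidirectProduct.inr (a : Γ) * SemidirectProduct.inr (b : Γ)
    rw [Subgroup.coe_mul, map_mul]

theorem j_conj {Δ : Subgroup Γ} {W : Set V} (h : ∀ δ ∈ Δ, δ • W = W) (δ : Δ) (n : N) :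
    jN s h (s.φ δ n) = jD s h δ * jN s h n * (jD s h δ)⁻¹ := by
  apply Subtype.ext
  change (SemidirectProduct.inl (s.e W (s.φ δ n)) : s.G) =
    SemidirectProduct.inr (δ : Γ) * SemidirectProduct.inl (s.e W n) *
      (SemidirectProduct.inr (δ : Γ))⁻¹
  have h1 := s.equivariant δ W n
  rw [h δ δ.2] at h1
  rw [← h1, SemidirectProduct.inl_aut, map_inv]

theorem j_dec {Δ : Subgroup Γ} {W : Set V} (h : ∀ δ ∈ Δ, δ • W = W) (w : sub s Δ W h) :
    w = jN s h w.1.left * jD s h ⟨w.1.right, w.2.2⟩ := by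
  apply Subtype.ext
  change w.1 = SemidirectProduct.inl (s.e W w.1.left) * SemidirectProduct.inr w.1.right
  rw [w.2.1, SemidirectProduct.inl_left_mul_inr_right]

/-- two sub-subgroups and homomorphisms on them -/
theorem amg_sub (Δ : Subgroup Γ) {W : Set V} (h : ∀ δ ∈ Δ, δ • W = W) {u v : V}
    (hu : ∀ δ ∈ Δ, δ • ({u} : Set V) = {u}) (hv : ∀ δ ∈ Δ, δ • ({v} : Set V) = {v})
    (hs : s.Sep u v) :
    Amg (G := sub s Δ W h)
      ((sub s Δ (W ∩ {u}ᶜ) (smul_diff h hu)).subgroupOf _)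
      ((sub s Δ (W ∩ {v}ᶜ) (smul_diff h hv)).subgroupOf _)
      ((sub s Δ (W ∩ {u}ᶜ ∩ {v}ᶜ) (smul_diff (smul_diff h hu) hv)).subgroupOf _) := by
  have hWu := smul_diff h hu
  have hWv := smul_diff h hv
  have hWuv := smul_diff (smul_diff h hu) hv
  have lA : sub s Δ (W ∩ {u}ᶜ) hWu ≤ sub s Δ W h := sub_mono s le_rfl Set.inter_subset_left
  have lB : sub s Δ (W ∩ {v}ᶜ) hWv ≤ sub s Δ W h := sub_mono s le_rfl Set.inter_subset_left
  have lKA : sub s Δ (W ∩ {u}ᶜ ∩ {v}ᶜ) hWuv ≤ sub s Δ (W ∩ {u}ᶜ) hWu :=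
    sub_mono s le_rfl Set.inter_subset_left
  have lKB : sub s Δ (W ∩ {u}ᶜ ∩ {v}ᶜ) hWuv ≤ sub s Δ (W ∩ {v}ᶜ) hWv :=
    sub_mono s le_rfl fun x hx => ⟨hx.1.1, hx.2⟩
  have hgenN : ∀ x : N, s.e W x ∈ (s.e (W ∩ {u}ᶜ)).range ⊔ (s.e (W ∩ {v}ᶜ)).range := by
    intro x
    have h1 : x ∈ (s.e {u}ᶜ).range ⊔ (s.e {v}ᶜ).range := by
      rw [hs.gen]
      trivial
    have h2 : s.e W x ∈ ((s.e {u}ᶜ).range ⊔ (s.e {v}ᶜ).range).map (s.e W) := ⟨x, h1, rfl⟩
    rw [Subgroup.map_sup] at h2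
    have h3 : (s.e {u}ᶜ).range.map (s.e W) ⊔ (s.e {v}ᶜ).range.map (s.e W) ≤
        (s.e (W ∩ {u}ᶜ)).range ⊔ (s.e (W ∩ {v}ᶜ)).range := by
      refine sup_le_sup ?_ ?_
      · rintro _ ⟨_, ⟨y, rfl⟩, rfl⟩
        exact ⟨y, (s.inter _ _ _).symm⟩
      · rintro _ ⟨_, ⟨y, rfl⟩, rfl⟩
        exact ⟨y, (s.inter _ _ _).symm⟩
    exact h3 h2
  refine ⟨?_, ?_, ?_, ?_⟩
  · exact fun x hx => lKA hx
  · exact fun x hx => lKB hx
  · rw [eq_top_iff]
    intro w _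
    rw [j_dec s h w]
    refine Subgroup.mul_mem _ ?_ ?_
    · have h3 : ∀ y ∈ (s.e (W ∩ {u}ᶜ)).range ⊔ (s.e (W ∩ {v}ᶜ)).range,
          jN s h y ∈ (sub s Δ (W ∩ {u}ᶜ) hWu).subgroupOf (sub s Δ W h) ⊔
            (sub s Δ (W ∩ {v}ᶜ) hWv).subgroupOf (sub s Δ W h) := by
        have h4 : (s.e (W ∩ {u}ᶜ)).range ⊔ (s.e (W ∩ {v}ᶜ)).range ≤
            ((sub s Δ (W ∩ {u}ᶜ) hWu).subgroupOf (sub s Δ W h) ⊔
            (sub s Δ (W ∩ {v}ᶜ) hWv).subgroupOf (sub s Δ W h)).comap (jN s h) := by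
          refine sup_le ?_ ?_
          · rintro _ ⟨y, rfl⟩
            refine Subgroup.mem_sup_left ?_
            refine ⟨?_, Δ.one_mem⟩
            change s.e (W ∩ {u}ᶜ) (s.e W (s.e (W ∩ {u}ᶜ) y)) = s.e W (s.e (W ∩ {u}ᶜ) y)
            rw [s.inter, s.inter, s.inter]
            refine congrArg (fun S => s.e S y) ?_
            ext z
            simp only [Set.mem_inter_iff]
            tauto
          · rintro _ ⟨y, rfl⟩
            refine Subgroup.mem_sup_right ?_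
            refine ⟨?_, Δ.one_mem⟩
            change s.e (W ∩ {v}ᶜ) (s.e W (s.e (W ∩ {v}ᶜ) y)) = s.e W (s.e (W ∩ {v}ᶜ) y)
            rw [s.inter, s.inter, s.inter]
            refine congrArg (fun S => s.e S y) ?_
            ext z
            simp only [Set.mem_inter_iff]
            tauto
        exact fun y hy => h4 hy
      have h5 := h3 _ (hgenN w.1.left)
      rw [w.2.1] at h5
      exact h5
    · refine Subgroup.mem_sup_left ?_
      exact ⟨map_one _, w.2.2⟩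
  · intro H _ f g hfg
    -- the maps on `N`
    let iA : sub s Δ (W ∩ {u}ᶜ) hWu →* (sub s Δ (W ∩ {u}ᶜ) hWu).subgroupOf (sub s Δ W h) :=
      (Subgroup.subgroupOfEquivOfLe lA).symm.toMonoidHom
    let iB : sub s Δ (W ∩ {v}ᶜ) hWv →* (sub s Δ (W ∩ {v}ᶜ) hWv).subgroupOf (sub s Δ W h) :=
      (Subgroup.subgroupOfEquivOfLe lB).symm.toMonoidHom
    let f' := f.comp iA
    let g' := g.comp iB
    have hfg' : ∀ (c : s.G) (hc : c ∈ sub s Δ (W ∩ {u}ᶜ ∩ {v}ᶜ) hWuv),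
        f' ⟨c, lKA hc⟩ = g' ⟨c, lKB hc⟩ := by
      intro c hc
      exact hfg ⟨c, lA (lKA hc)⟩ hc
    have hDD : ∀ δ : Δ, f' (jD s hWu δ) = g' (jD s hWv δ) := by
      intro δ
      exact hfg' (SemidirectProduct.inr (δ : Γ)) ⟨map_one _, δ.2⟩
    obtain ⟨k, hk1, hk2⟩ := hs.univ H ((f'.comp (jN s hWu)).comp (s.e {u}ᶜ).range.subtype)
      ((g'.comp (jN s hWv)).comp (s.e {v}ᶜ).range.subtype) (by
        rintro c ⟨x, rfl⟩
        have e1 : s.e (W ∩ {u}ᶜ) (s.e ({u}ᶜ ∩ {v}ᶜ) x) = s.e (W ∩ {u}ᶜ ∩ {v}ᶜ) x := by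
          rw [s.inter]
          refine congrArg (fun S => s.e S x) ?_
          ext z
          simp only [Set.mem_inter_iff]
          tauto
        have e2 : s.e (W ∩ {v}ᶜ) (s.e ({u}ᶜ ∩ {v}ᶜ) x) = s.e (W ∩ {u}ᶜ ∩ {v}ᶜ) x := by
          rw [s.inter]
          refine congrArg (fun S => s.e S x) ?_
          ext z
          simp only [Set.mem_inter_iff]
          tauto
        have hc : (SemidirectProduct.inl (s.e (W ∩ {u}ᶜ ∩ {v}ᶜ) x) : s.G) ∈
            sub s Δ (W ∩ {u}ᶜ ∩ {v}ᶜ) hWuv := by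
          refine ⟨?_, Δ.one_mem⟩
          rw [SemidirectProduct.left_inl, s.inter, Set.inter_self]
        have h1 := hfg' _ hc
        have h2 : jN s hWu (s.e ({u}ᶜ ∩ {v}ᶜ) x) = ⟨_, lKA hc⟩ := by
          apply Subtype.ext
          change (SemidirectProduct.inl (s.e (W ∩ {u}ᶜ) (s.e ({u}ᶜ ∩ {v}ᶜ) x)) : s.G) = _
          rw [e1]
        have h3 : jN s hWv (s.e ({u}ᶜ ∩ {v}ᶜ) x) = ⟨_, lKB hc⟩ := by
          apply Subtype.ext
          change (SemidirectProduct.inl (s.e (W ∩ {v}ᶜ) (s.e ({u}ᶜ ∩ {v}ᶜ) x)) : s.G) = _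
          rw [e2]
        change f' (jN s hWu (s.e ({u}ᶜ ∩ {v}ᶜ) x)) = g' (jN s hWv (s.e ({u}ᶜ ∩ {v}ᶜ) x))
        rw [h2, h3]
        exact h1)
    have hkA : ∀ n : N, s.e (W ∩ {u}ᶜ) n = n → k n = f' (jN s hWu n) := by
      intro n hn
      exact hk1 ⟨n, n, e_mono s Set.inter_subset_right hn⟩
    have hkB : ∀ n : N, s.e (W ∩ {v}ᶜ) n = n → k n = g' (jN s hWv n) := by
      intro n hn
      exact hk2 ⟨n, n, e_mono s Set.inter_subset_right hn⟩
    have hconj : ∀ (δ : Δ) (n : N), s.e W n = n →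
        k (s.φ δ n) = f' (jD s hWu δ) * k n * (f' (jD s hWu δ))⁻¹ := by
      intro δ n hn
      have h1 : (s.e (W ∩ {u}ᶜ)).range ⊔ (s.e (W ∩ {v}ᶜ)).range ≤
          MonoidHom.eqLocus (k.comp (s.φ δ).toMonoidHom)
            ((MulAut.conj (f' (jD s hWu δ))).toMonoidHom.comp k) := by
        refine sup_le ?_ ?_
        · rintro _ ⟨x, rfl⟩
          have hx : s.e (W ∩ {u}ᶜ) (s.e (W ∩ {u}ᶜ) x) = s.e (W ∩ {u}ᶜ) x := by
            rw [s.inter, Set.inter_self]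
          change k (s.φ δ (s.e (W ∩ {u}ᶜ) x)) =
            f' (jD s hWu δ) * k (s.e (W ∩ {u}ᶜ) x) * (f' (jD s hWu δ))⁻¹
          rw [hkA _ (e_act s (hWu δ δ.2) hx), hkA _ hx, j_conj, map_mul, map_mul, map_inv]
        · rintro _ ⟨x, rfl⟩
          have hx : s.e (W ∩ {v}ᶜ) (s.e (W ∩ {v}ᶜ) x) = s.e (W ∩ {v}ᶜ) x := by
            rw [s.inter, Set.inter_self]
          change k (s.φ δ (s.e (W ∩ {v}ᶜ) x)) =
            f' (jD s hWu δ) * k (s.e (W ∩ {v}ᶜ) x) * (f' (jD s hWu δ))⁻¹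
          rw [hkB _ (e_act s (hWv δ δ.2) hx), hkB _ hx, j_conj, map_mul, map_mul, map_inv, hDD]
      have h2 := h1 (hgenN n)
      rw [hn] at h2
      exact h2
    refine ⟨MonoidHom.mk' (fun w => k w.1.left * f' (jD s hWu ⟨w.1.right, w.2.2⟩)) ?_, ?_, ?_⟩
    · intro a b
      have h1 : k (a * b).1.left = k a.1.left * k (s.φ a.1.right b.1.left) := by
        rw [← map_mul]
        rfl
      have h2 : f' (jD s hWu ⟨(a * b).1.right, (a * b).2.2⟩) =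
          f' (jD s hWu ⟨a.1.right, a.2.2⟩) * f' (jD s hWu ⟨b.1.right, b.2.2⟩) := by
        rw [← map_mul, ← map_mul]
        rfl
      have h3 := hconj ⟨a.1.right, a.2.2⟩ b.1.left b.2.1
      change k (a * b).1.left * f' (jD s hWu ⟨(a * b).1.right, (a * b).2.2⟩) =
        k a.1.left * f' (jD s hWu ⟨a.1.right, a.2.2⟩) *
          (k b.1.left * f' (jD s hWu ⟨b.1.right, b.2.2⟩))
      rw [h1, h2]
      have h4 : k (s.φ a.1.right b.1.left) = _ := h3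
      rw [h4]
      group
    · intro a
      have ha : a.1.1 ∈ sub s Δ (W ∩ {u}ᶜ) hWu := a.2
      change k a.1.1.left * f' (jD s hWu ⟨a.1.1.right, a.1.2.2⟩) = f a
      rw [hkA _ ha.1, ← map_mul]
      have h1 := j_dec s hWu ⟨a.1.1, ha⟩
      have h2 : jN s hWu a.1.1.left * jD s hWu ⟨a.1.1.right, a.1.2.2⟩ = ⟨a.1.1, ha⟩ := h1.symm
      rw [h2]
      rfl
    · intro b
      have hb : b.1.1 ∈ sub s Δ (W ∩ {v}ᶜ) hWv := b.2
      change k b.1.1.left * f' (jD s hWu ⟨b.1.1.right, b.1.2.2⟩) = g b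
      rw [hkB _ hb.1, hDD, ← map_mul]
      have h1 := j_dec s hWv ⟨b.1.1, hb⟩
      have h2 : jN s hWv b.1.1.left * jD s hWv ⟨b.1.1.right, b.1.2.2⟩ = ⟨b.1.1, hb⟩ := h1.symm
      rw [h2]
      rfl

end

end Pool.Agent.T2h60.SF
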