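import Pool.Agent.T2h60.SF.Am

/-!
# Semidirect products with a system of supports: finite supports and finite orbits
-/

set_option autoImplicit false

namespace Pool.Agent.T2h60.SF

open Pool.Agent.Y483.PW Pool.Agent.Y110.FJ Pointwise
open Pool.Agent.Y462.SS (Closed Wr)

variable {C : ∀ (G : Type) [Group G], Prop}

section

variable {Γ N V : Type} [Group Γ] [Group N] [MulAction Γ V] (s : Sys Γ N V)

theorem sub_congr {Δ : Subgroup Γ} {W W' : Set V} (hW : W' = W) {h : ∀ δ ∈ Δ, δ • W = W}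
    {h' : ∀ δ ∈ Δ, δ • W' = W'} (hC : C (sub s Δ W' h')) : C (sub s Δ W h) := by
  subst hW
  exact hC

theorem sing_inv {Δ : Subgroup Γ} {u : V} (h : ∀ δ ∈ Δ, δ • u = u) :
    ∀ δ ∈ Δ, δ • ({u} : Set V) = {u} := by
  intro δ hδ
  rw [Set.smul_set_singleton, h δ hδ]

theorem set_inv {Δ : Subgroup Γ} {W : Set V} (h : ∀ δ ∈ Δ, ∀ w ∈ W, δ • w = w) :
    ∀ δ ∈ Δ, δ • W = W := by
  intro δ hδ
  ext x
  constructor
  · rintro ⟨w, hw, rfl⟩
    change δ • w ∈ W
    rw [h δ hδ w hw]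
    exact hw
  · intro hx
    exact ⟨x, hx, h δ hδ x hx⟩

/-- finite sets which are fixed pointwise -/
theorem C_fin (hC : ClosedE C) (Δ : Subgroup Γ) : ∀ (n : ℕ) (W : Set V), W.Finite → W.ncard = n →
    (∀ δ ∈ Δ, ∀ w ∈ W, δ • w = w) →
    (∀ (σ : s.Cl) (h : ∀ δ ∈ Δ, δ • (σ.1 : Set V) = σ.1), (σ.1 : Set V) ⊆ W → C (sub s Δ σ.1 h)) →
    ∀ h : ∀ δ ∈ Δ, δ • W = W, C (sub s Δ W h) := by
  intro n
  induction n using Nat.strong_induction_on with
  | _ n ih =>
  intro W hW hn hpt hcl h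
  by_cases hq : ∀ u ∈ W, ∀ v ∈ W, u ≠ v → ¬ s.Sep u v
  · have hcoe := hW.coe_toFinset
    have h' : ∀ δ ∈ Δ, δ • ((hW.toFinset : Finset V) : Set V) = (hW.toFinset : Finset V) := by
      rw [hcoe]
      exact h
    refine sub_congr s hcoe (h' := h') (hcl ⟨hW.toFinset, ?_⟩ h' hcoe.le)
    intro u hu v hv huv
    exact hq u (hW.mem_toFinset.1 hu) v (hW.mem_toFinset.1 hv) huv
  · push Not at hq
    obtain ⟨u, hu, v, hv, -, hs⟩ := hq
    have hu' := sing_inv fun δ hδ => hpt δ hδ u hu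
    have hv' := sing_inv fun δ hδ => hpt δ hδ v hv
    have key : ∀ w ∈ W, ∀ h1 : ∀ δ ∈ Δ, δ • (W ∩ {w}ᶜ) = W ∩ {w}ᶜ,
        C (sub s Δ (W ∩ {w}ᶜ) h1) := by
      intro w hw h1
      refine ih (W ∩ {w}ᶜ).ncard ?_ _ (hW.subset Set.inter_subset_left) rfl
        (fun δ hδ x hx => hpt δ hδ x hx.1) (fun σ h2 h3 => hcl σ h2 (h3.trans Set.inter_subset_left)) h1
      rw [← hn]
      refine Set.ncard_lt_ncard ?_ hW
      refine ⟨Set.inter_subset_left, fun h2 => ?_⟩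
      exact (h2 hw).2 rfl
    refine Pool.Agent.Y417.FJ.t_am (Pool.Agent.Y961.FJ.t_perm Pool.Agent.Y529.FJ.t_ext) C hC
      _ _ _ _ _ (amg_sub s Δ h hu' hv' hs)
      ((ret s h (smul_diff h hu')).prod (ret s h (smul_diff h hv'))) ?_ ?_
      (hC.base.prod _ _ (key u hu _) (key v hv _))
    · intro a ha h1
      exact ret_fix s h (smul_diff h hu') ha.1 (congrArg Prod.fst h1)
    · intro a ha h1
      exact ret_fix s h (smul_diff h hv') ha.1 (congrArg Prod.snd h1)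

theorem zp_inv {γ : Γ} {W : Set V} (h : γ • W = W) : ∀ δ ∈ Subgroup.zpowers γ, δ • W = W := by
  intro δ hδ
  have h1 : Subgroup.zpowers γ ≤ MulAction.stabilizer Γ W := by
    rw [Subgroup.zpowers_le]
    exact h
  exact h1 hδ

theorem zp_fix {γ : Γ} {W : Set V} (h : ∀ w ∈ W, γ • w = w) :
    ∀ δ ∈ Subgroup.zpowers γ, ∀ w ∈ W, δ • w = w := by
  intro δ hδ w hw
  have h1 : Subgroup.zpowers γ ≤ MulAction.stabilizer Γ w := by
    rw [Subgroup.zpowers_le]
    exact h w hw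
  exact h1 hδ

/-- the groups `N_σ ⟨γ⟩` are in the class, for all cliques `σ` and all `γ` which fix `σ` pointwise -/
def Hyp (C : ∀ (G : Type) [Group G], Prop) : Prop :=
  ∀ (σ : s.Cl) (γ : Γ) (h : ∀ v ∈ (σ.1 : Set V), γ • v = v),
    C (sub s (Subgroup.zpowers γ) σ.1 (set_inv (zp_fix h)))

/-- finite invariant sets -/
theorem C_fin_inv (hC : ClosedE C) (hyp : Hyp s C) (γ : Γ) {F : Set V} (hF : F.Finite)
    (h : γ • F = F) : C (sub s (Subgroup.zpowers γ) F (zp_inv h)) := by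
  obtain ⟨k, hk, hk2⟩ : ∃ k : ℕ, 0 < k ∧ ∀ v ∈ F, γ ^ k • v = v := by
    have h1 : ∀ v ∈ F, ∃ k : ℕ, 0 < k ∧ γ ^ k • v = v := by
      intro v hv
      have h2 : ∀ n : ℕ, γ ^ n • v ∈ F := by
        intro n
        have h3 : γ ^ n • F = F := zp_inv h _ (Subgroup.npow_mem_zpowers γ n)
        rw [← h3]
        exact ⟨v, hv, rfl⟩
      obtain ⟨a, b, hab, hne⟩ : ∃ a b : ℕ, a < b ∧ γ ^ a • v = γ ^ b • v := by
        by_contra hcon
        push Not at hcon
        have hinj : Function.Injective fun n : ℕ => γ ^ n • v := by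
          intro a b hab
          rcases lt_trichotomy a b with h3 | h3 | h3
          · exact absurd hab (hcon a b h3)
          · exact h3
          · exact absurd hab.symm (hcon b a h3)
        exact Set.infinite_range_of_injective hinj
          (hF.subset (by rintro _ ⟨n, rfl⟩; exact h2 n))
      refine ⟨b - a, by omega, ?_⟩
      have h3 : γ ^ b = γ ^ a * γ ^ (b - a) := by
        rw [← pow_add]
        congr 1
        omega
      rw [h3, mul_smul] at hne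
      exact (MulAction.injective (γ ^ a) hne).symm
    choose! k hk1 hk2 using h1
    refine ⟨∏ v ∈ hF.toFinset, k v, Finset.prod_pos fun v hv => hk1 v (hF.mem_toFinset.1 hv), ?_⟩
    intro v hv
    obtain ⟨c, hc⟩ := Finset.dvd_prod_of_mem k (hF.mem_toFinset.2 hv)
    rw [hc, pow_mul]
    have h3 : γ ^ k v ∈ MulAction.stabilizer Γ v := hk2 v hv
    exact (MulAction.stabilizer Γ v).pow_mem h3 c
  have hk3 : (γ ^ k) • F = F := zp_inv h _ (Subgroup.npow_mem_zpowers γ k)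
  have hle : Subgroup.zpowers (γ ^ k) ≤ Subgroup.zpowers γ := by
    rw [Subgroup.zpowers_le]
    exact Subgroup.npow_mem_zpowers γ k
  refine Pool.Agent.Y529.FJ.up hC.base (H := sub s (Subgroup.zpowers (γ ^ k)) F (zp_inv hk3))
    (sub_mono s hle le_rfl) ?_ ?_
  · have h1 : sub s (Subgroup.zpowers (γ ^ k)) F (zp_inv hk3) =
        (Subgroup.zpowers (γ ^ k)).comap SemidirectProduct.rightHom ⊓
          sub s (Subgroup.zpowers γ) F (zp_inv h) := by
      ext w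
      constructor
      · intro hw
        exact ⟨hw.2, sub_mono s hle le_rfl hw⟩
      · intro hw
        exact ⟨hw.2.1, hw.1⟩
    have h2 : (sub s (Subgroup.zpowers γ) F (zp_inv h)).map SemidirectProduct.rightHom =
        Subgroup.zpowers γ := by
      ext x
      constructor
      · rintro ⟨w, hw, rfl⟩
        exact hw.2
      · intro hx
        exact ⟨SemidirectProduct.inr x, ⟨map_one _, hx⟩, rfl⟩
    rw [h1, Subgroup.inf_relIndex_right, Subgroup.relIndex_comap, h2]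
    exact rel_zpow γ hk
  · refine C_fin s hC _ _ F hF rfl (zp_fix hk2) (fun σ h1 h2 => ?_) _
    exact hyp σ (γ ^ k) fun v hv => hk2 v (h2 hv)

/-- the elements with finite orbits -/
def Fi (γ : Γ) : Set V := {v | ∃ F : Set V, F.Finite ∧ γ • F = F ∧ v ∈ F}

theorem Fi_inv (γ : Γ) : γ • (Fi γ : Set V) = Fi γ := by
  ext x
  constructor
  · rintro ⟨v, ⟨F, hF, h1, h2⟩, rfl⟩
    refine ⟨F, hF, h1, ?_⟩
    rw [← h1]
    exact ⟨v, h2, rfl⟩
  · rintro ⟨F, hF, h1, h2⟩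
    rw [← h1] at h2
    obtain ⟨v, hv, rfl⟩ := h2
    exact ⟨v, ⟨F, hF, h1, hv⟩, rfl⟩

/-- each element of `N` with support in an invariant set with finite orbits has finite invariant
support -/
theorem ex_inv (γ : Γ) {n : N} (hn : s.e (Fi γ) n = n) :
    ∃ F : Set V, F.Finite ∧ γ • F = F ∧ s.e F n = n := by
  obtain ⟨S, hS⟩ := s.finite n
  have h1 : ∀ v ∈ (S : Set V) ∩ Fi γ, ∃ F : Set V, F.Finite ∧ γ • F = F ∧ v ∈ F := fun v hv => hv.2
  choose! F hF1 hF2 hF3 using h1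
  refine ⟨⋃ v ∈ (S : Set V) ∩ Fi γ, F v, ?_, ?_, ?_⟩
  · exact (S.finite_toSet.subset Set.inter_subset_left).biUnion hF1
  · rw [Set.smul_set_iUnion₂]
    exact Set.iUnion₂_congr hF2
  · refine e_mono s (S := (S : Set V) ∩ Fi γ) ?_ ?_
    · intro v hv
      exact Set.mem_iUnion₂.2 ⟨v, hv, hF3 v hv⟩
    · rw [← s.inter, hn, hS]

theorem C_Fi (hC : ClosedE C) (hyp : Hyp s C) (γ : Γ) :
    C (sub s (Subgroup.zpowers γ) (Fi γ) (zp_inv (Fi_inv γ))) := by
  let I : Type := {F : Set V // F.Finite ∧ γ • F = F ∧ F ⊆ Fi γ}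
  have : Nonempty I := ⟨⟨∅, Set.finite_empty, Set.smul_set_empty, Set.empty_subset _⟩⟩
  refine Pool.Agent.Y430.SS.of_directed hC.base _ I (fun i j => ?_)
    (fun i => (sub s (Subgroup.zpowers γ) i.1 (zp_inv i.2.2.1)).subgroupOf _) ?_ ?_ ?_
  · refine ⟨⟨i.1 ∪ j.1, i.2.1.union j.2.1, ?_, Set.union_subset i.2.2.2 j.2.2.2⟩,
      Set.subset_union_left, Set.subset_union_right⟩
    rw [Set.smul_set_union, i.2.2.1, j.2.2.1]
  · intro i j hij x hx
    exact sub_mono s (h := zp_inv i.2.2.1) (h' := zp_inv j.2.2.1) le_rfl hij hx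
  · intro w
    obtain ⟨F, h1, h2, h3⟩ := ex_inv s γ w.2.1
    exact ⟨⟨F, h1, h2, fun v hv => ⟨F, h1, h2, hv⟩⟩, h3, w.2.2⟩
  · intro i
    have hle : sub s (Subgroup.zpowers γ) i.1 (zp_inv i.2.2.1) ≤
        sub s (Subgroup.zpowers γ) (Fi γ) (zp_inv (Fi_inv γ)) := sub_mono s le_rfl i.2.2.2
    exact hC.base.of_injective _ _ (Subgroup.subgroupOfEquivOfLe hle).toMonoidHom
      (Subgroup.subgroupOfEquivOfLe hle).injective (C_fin_inv s hC hyp γ i.2.1 i.2.2.1)

end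

end Pool.Agent.T2h60.SF
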