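import Pool.Agent.R942.FJ.Det
import Pool.Agent.Y812.SS.Wr

/-!
# Shifts: conjugations realized in wreath products with finite cyclic groups
-/

set_option autoImplicit false

namespace Pool.Agent.T2h60.SF

open Pool.Agent.Y110.FJ
open Pool.Agent.Y462.SS (Closed Wr)

variable {C : ∀ (G : Type) [Group G], Prop}

/-- the homomorphism `x ↦ t (g ^ (-k) x g ^ k)` -/
def shf {G : Type} [Group G] (M : Subgroup G) [hM : M.Normal] (g : G) {A : Type} [Group A]
    (t : M →* A) (k : ℤ) : M →* A where
  toFun x := t ⟨g ^ (-k) * x * g ^ k, by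
    have h := hM.conj_mem x x.2 (g ^ (-k))
    rwa [← zpow_neg, neg_neg] at h⟩
  map_one' := by
    rw [← map_one t]
    congr 1
    apply Subtype.ext
    simp
  map_mul' a b := by
    rw [← map_mul]
    congr 1
    apply Subtype.ext
    simp only [Subgroup.coe_mul, zpow_neg]
    group

theorem shf_conj {G : Type} [Group G] (M : Subgroup G) [hM : M.Normal] (g : G) {A : Type} [Group A]
    (t : M →* A) (k : ℤ) (x y : M) (hxy : (y : G) = g * x * g⁻¹) :
    shf M g t (k + 1) y = shf M g t k x := by
  have h : (⟨g ^ (-(k + 1)) * y * g ^ (k + 1), by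
      have h := hM.conj_mem y y.2 (g ^ (-(k + 1)))
      rwa [← zpow_neg, neg_neg] at h⟩ : M) =
      ⟨g ^ (-k) * x * g ^ k, by
      have h := hM.conj_mem x x.2 (g ^ (-k))
      rwa [← zpow_neg, neg_neg] at h⟩ := by
    apply Subtype.ext
    change g ^ (-(k + 1)) * (y : G) * g ^ (k + 1) = g ^ (-k) * x * g ^ k
    rw [hxy, neg_add, zpow_add, zpow_add]
    group
  exact congrArg t h

/-- a homomorphism to a group in the class which vanishes on the conjugates of the elements of `E`
by large powers of `g` -/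
theorem real_shift (hC : Closed C) {G : Type} [Group G] (M : Subgroup G) [hM : M.Normal] (g : G)
    {A : Type} [Group A] (hA : C A) (t : M →* A) (E : Set G) (hE : E.Finite) (hEM : E ⊆ M)
    (hinj : ∀ x : M, (x : G) ∈ Subgroup.closure (E ∪ (fun x => g * x * g⁻¹) '' E) →
      t x = 1 → x = 1)
    (hfin : ∀ x : M, (x : G) ∈ E → ∃ K : ℕ, ∀ k : ℤ, (K : ℤ) ≤ |k| → shf M g t k x = 1) :
    Realized C g E := by
  have hle : Subgroup.closure (E ∪ (fun x => g * x * g⁻¹) '' E) ≤ M := by
    rw [Subgroup.closure_le]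
    rintro x (hx | ⟨y, hy, rfl⟩)
    · exact hEM hx
    · exact hM.conj_mem y (hEM hy) g
  obtain ⟨K, hK⟩ : ∃ K : ℕ, ∀ x : M, (x : G) ∈ E → ∀ k : ℤ, (K : ℤ) ≤ |k| → shf M g t k x = 1 := by
    have h1 : ∀ x ∈ E, ∃ K : ℕ, ∀ y : M, (y : G) = x → ∀ k : ℤ, (K : ℤ) ≤ |k| →
        shf M g t k y = 1 := by
      intro x hx
      obtain ⟨K, hK⟩ := hfin ⟨x, hEM hx⟩ hx
      refine ⟨K, fun y hy k hk => ?_⟩
      have h2 : y = ⟨x, hEM hx⟩ := Subtype.ext hy
      rw [h2]
      exact hK k hk
    choose! K hK using h1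
    refine ⟨∑ x ∈ hE.toFinset, K x, fun x hx k hk => hK x hx x rfl k ?_⟩
    refine le_trans ?_ hk
    exact_mod_cast Finset.single_le_sum (f := K) (fun _ _ => Nat.zero_le _) (hE.mem_toFinset.2 hx)
  let c : ℤ → M →* A := fun k => shf M g t k
  let w : M →* Wr (Fin (2 * K + 1)) A :=
    { toFun := fun x => ⟨fun r => c ((r : ℤ) - K) x, 1⟩
      map_one' := by
        apply Wr.ext
        · funext r
          exact map_one _
        · rfl
      map_mul' := fun x y => by
        apply Wr.ext
        · funext r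
          exact map_mul _ x y
        · rfl }
  refine ⟨Wr (Fin (2 * K + 1)) A, inferInstance, w.comp (Subgroup.inclusion hle),
    ⟨fun _ => 1, finRotate (2 * K + 1)⟩,
    Pool.Agent.Y812.SS.t_wr C hC (Fin (2 * K + 1)) A inferInstance hA, ?_, ?_⟩
  · rw [injective_iff_map_eq_one]
    intro x hx
    have h1 : (w (Subgroup.inclusion hle x)).s ⟨K, by omega⟩ = 1 := by
      have h2 : w (Subgroup.inclusion hle x) = 1 := hx
      rw [h2]
      rfl
    have h2 : t (Subgroup.inclusion hle x) = 1 := by
      have h3 : c (((⟨K, by omega⟩ : Fin (2 * K + 1)) : ℤ) - K) (Subgroup.inclusion hle x) = 1 := h1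
      have h4 : (((⟨K, by omega⟩ : Fin (2 * K + 1)) : ℕ) : ℤ) - K = 0 := by simp
      rw [h4] at h3
      have h5 : c 0 (Subgroup.inclusion hle x) = t (Subgroup.inclusion hle x) := by
        change t _ = t _
        congr 1
        apply Subtype.ext
        simp
      rw [← h5]
      exact h3
    have h3 := hinj _ x.2 h2
    apply Subtype.ext
    exact congrArg (fun z : M => (z : G)) h3
  · intro x y hx hy
    rw [eq_mul_inv_iff_mul_eq]
    obtain ⟨x', hx'⟩ : ∃ x' : M, x' = Subgroup.inclusion hle x := ⟨_, rfl⟩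
    obtain ⟨y', hy'⟩ : ∃ y' : M, y' = Subgroup.inclusion hle y := ⟨_, rfl⟩
    have hx2 : (x' : G) ∈ E := by rw [hx']; exact hx
    have hy2 : (y' : G) = g * x' * g⁻¹ := by rw [hx', hy']; exact hy
    change w (Subgroup.inclusion hle y) * _ = _ * w (Subgroup.inclusion hle x)
    rw [← hx', ← hy']
    apply Wr.ext
    · funext r
      change c (((finRotate (2 * K + 1) r : Fin (2 * K + 1)) : ℤ) - K) y' * 1 =
        1 * c ((r : ℤ) - K) x'
      rw [mul_one, one_mul]
      by_cases hr : r = Fin.last (2 * K)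
      · rw [hr, finRotate_last]
        have h1 : c (((0 : Fin (2 * K + 1)) : ℤ) - K) y' = c (-(K : ℤ) - 1) x' := by
          have h2 := shf_conj M g t (-(K : ℤ) - 1) x' y' hy2
          have h3 : (-(K : ℤ) - 1 + 1) = ((0 : Fin (2 * K + 1)) : ℕ) - (K : ℤ) := by simp
          rw [h3] at h2
          exact h2
        rw [h1]
        have h4 : c (-(K : ℤ) - 1) x' = 1 := by
          refine hK x' hx2 _ ?_
          rw [abs_of_nonpos (by omega)]
          omega
        have h5 : c (((Fin.last (2 * K) : Fin (2 * K + 1)) : ℤ) - K) x' = 1 := by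
          refine hK x' hx2 _ ?_
          rw [Fin.val_last, abs_of_nonneg (by push_cast; omega)]
          push_cast
          omega
        rw [h4, h5]
      · have hv : ((finRotate (2 * K + 1) r : Fin (2 * K + 1)) : ℕ) = r + 1 :=
          coe_finRotate_of_ne_last hr
        rw [hv]
        have h2 := shf_conj M g t ((r : ℤ) - K) x' y' hy2
        have h3 : ((r : ℤ) - K + 1) = ((r + 1 : ℕ) : ℤ) - K := by
          push_cast
          ring
        rw [h3] at h2
        exact h2
    · change (1 : Equiv.Perm (Fin (2 * K + 1))) * finRotate (2 * K + 1) = finRotate (2 * K + 1) * 1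
      rw [one_mul, mul_one]

end Pool.Agent.T2h60.SF
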