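import Pool.Agent.T2h60.SF.Fin
import Pool.Agent.T2h60.SF.Real

/-!
# Semidirect products with a system of supports are in the class
-/

set_option autoImplicit false

namespace Pool.Agent.T2h60.SF

open Pool.Agent.Y483.PW Pool.Agent.Y110.FJ Pointwise
open Pool.Agent.Y462.SS (Closed Wr)

variable {C : ∀ (G : Type) [Group G], Prop}

section

variable {Γ N V : Type} [Group Γ] [Group N] [MulAction Γ V] (s : Sys Γ N V)

theorem e_univ (n : N) : s.e Set.univ n = n := by
  obtain ⟨S, hS⟩ := s.finite n
  exact e_mono s (Set.subset_univ _) hS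

theorem Fi_one : (Fi (1 : Γ) : Set V) = Set.univ := by
  rw [Set.eq_univ_iff_forall]
  intro v
  exact ⟨{v}, Set.finite_singleton v, one_smul _ _, rfl⟩

theorem mem_Fi {γ : Γ} {w : V} {j : ℤ} (hj : j ≠ 0) (h : γ ^ j • w = w) : w ∈ (Fi γ : Set V) := by
  refine ⟨Set.range fun i : ℤ => γ ^ i • w, ?_, ?_, ⟨0, by simp⟩⟩
  · refine ((Set.finite_Ico (0 : ℤ) |j|).image fun i : ℤ => γ ^ i • w).subset ?_
    rintro _ ⟨i, rfl⟩
    refine ⟨i % j, ⟨Int.emod_nonneg i hj, Int.emod_lt_abs i hj⟩, ?_⟩
    have h1 : i = i % j + j * (i / j) := (Int.emod_add_mul_ediv i j).symm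
    have h2 : γ ^ (j * (i / j)) • w = w := by
      rw [zpow_mul]
      exact (MulAction.stabilizer Γ w).zpow_mem (x := γ ^ j) h (i / j)
    change γ ^ (i % j) • w = γ ^ i • w
    conv_rhs => rw [h1, zpow_add, mul_smul, h2]
  · ext x
    constructor
    · rintro ⟨_, ⟨i, rfl⟩, rfl⟩
      refine ⟨1 + i, ?_⟩
      change γ ^ (1 + i) • w = γ • γ ^ i • w
      rw [zpow_add, zpow_one, mul_smul]
    · rintro ⟨i, rfl⟩
      refine ⟨γ ^ (-1 + i) • w, ⟨_, rfl⟩, ?_⟩
      change γ • γ ^ (-1 + i) • w = γ ^ i • w
      rw [zpow_add, mul_smul, zpow_neg_one, smul_inv_smul]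

/-- the group `N` is in the class -/
theorem C_N (hC : ClosedE C) (hyp : Hyp s C) : C N := by
  refine hC.base.of_injective _ _ (jN s (Δ := Subgroup.zpowers (1 : Γ)) (W := Fi (1 : Γ))
    (zp_inv (Fi_inv 1))) ?_ (C_Fi s hC hyp 1)
  intro a b hab
  have h1 : (SemidirectProduct.inl (s.e (Fi (1 : Γ)) a) : s.G) =
    SemidirectProduct.inl (s.e (Fi (1 : Γ)) b) := congrArg Subtype.val hab
  have h2 := SemidirectProduct.inl_injective h1
  rw [Fi_one, e_univ, e_univ] at h2
  exact h2

/-- the left component on the elements with trivial right component -/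
def lf {H : Type} [Group H] (f : H →* s.G) (hf : ∀ h, (f h).right = 1) : H →* N where
  toFun h := (f h).left
  map_one' := by
    rw [map_one]
    rfl
  map_mul' a b := by
    rw [map_mul, SemidirectProduct.mul_left, hf a, map_one]
    rfl

theorem pow_right (g : s.G) (k : ℤ) : (g ^ k).right = g.right ^ k := by
  exact map_zpow (SemidirectProduct.rightHom : s.G →* Γ) g k

theorem conj_left (g : s.G) (x : s.G) (hx : x.right = 1) :
    (g⁻¹ * x * g).left = s.φ g.right⁻¹ (g.left⁻¹ * x.left * g.left) := by
  rw [SemidirectProduct.mul_left, SemidirectProduct.mul_left, SemidirectProduct.inv_left,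
    SemidirectProduct.mul_right, SemidirectProduct.inv_right, hx, mul_one, map_mul, map_mul]

/-- the group `N ⟨γ⟩` is in the class -/
theorem C_cyc (hC : ClosedE C) (hyp : Hyp s C) (γ : Γ) (hu : γ • (Set.univ : Set V) = Set.univ) :
    C (sub s (Subgroup.zpowers γ) Set.univ (zp_inv hu)) := by
  obtain ⟨ρ, hρ⟩ : ∃ ρ, ρ = ret s (zp_inv hu) (zp_inv (Fi_inv γ)) := ⟨_, rfl⟩
  have hker : ∀ w : sub s (Subgroup.zpowers γ) Set.univ (zp_inv hu), w ∈ ρ.ker ↔
      s.e (Fi γ) w.1.left = 1 ∧ w.1.right = 1 := by
    intro w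
    rw [MonoidHom.mem_ker, hρ]
    constructor
    · intro h
      have h1 : (⟨s.e (Fi γ) w.1.left, w.1.right⟩ : s.G) = 1 := congrArg Subtype.val h
      have h2 : s.e (Fi γ) w.1.left = 1 := congrArg SemidirectProduct.left h1
      have h3 : w.1.right = 1 := congrArg SemidirectProduct.right h1
      exact ⟨h2, h3⟩
    · intro h
      apply Subtype.ext
      apply SemidirectProduct.ext
      · exact h.1
      · exact h.2
  have hlr : ∀ x : ρ.ker, (((sub s (Subgroup.zpowers γ) Set.univ (zp_inv hu)).subtype.comp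
      ρ.ker.subtype) x).right = 1 := fun x => ((hker x.1).1 x.2).2
  let t0 : ρ.ker →* N := lf s ((sub s (Subgroup.zpowers γ) Set.univ (zp_inv hu)).subtype.comp
    ρ.ker.subtype) hlr
  have ht0 : ∀ x : ρ.ker, t0 x = x.1.1.left := fun _ => rfl
  have ht0i : ∀ x : ρ.ker, t0 x = 1 → x = 1 := by
    intro x hx
    apply Subtype.ext
    apply Subtype.ext
    apply SemidirectProduct.ext
    · exact hx
    · exact hlr x
  have hCN := C_N s hC hyp
  refine Pool.Agent.R779.FJ.t_crit Pool.Agent.Y529.FJ.t_ext
    (Pool.Agent.Y961.FJ.t_perm Pool.Agent.Y529.FJ.t_ext) C hC _ ρ.ker ?_ ?_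
  · exact hC.base.of_injective _ _ (QuotientGroup.kerLift ρ) (QuotientGroup.kerLift_injective ρ)
      (C_Fi s hC hyp γ)
  · intro g E hE hEM
    have hle : Subgroup.closure (E ∪ (fun x => g * x * g⁻¹) '' E) ≤ ρ.ker := by
      rw [Subgroup.closure_le]
      rintro x (hx | ⟨y, hy, rfl⟩)
      · exact hEM hx
      · exact (inferInstance : ρ.ker.Normal).conj_mem y (hEM hy) g
    by_cases hg : g.1.right = 1
    · -- elements of `N`
      refine ⟨N, inferInstance, t0.comp (Subgroup.inclusion hle), g.1.left, hCN, ?_, ?_⟩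
      · rw [injective_iff_map_eq_one]
        intro x hx
        have h1 := ht0i _ hx
        apply Subtype.ext
        exact congrArg (fun z : ρ.ker => z.1) h1
      · intro x y _ hy
        change y.1.1.left = g.1.left * x.1.1.left * g.1.left⁻¹
        rw [hy]
        have hx : x.1.1.right = 1 := hlr ⟨x.1, hle x.2⟩
        change ((g.1 * x.1.1) * (g.1)⁻¹).left = _
        rw [SemidirectProduct.mul_left, SemidirectProduct.mul_left, SemidirectProduct.inv_left,
          SemidirectProduct.mul_right, hg, hx, one_mul, map_one, inv_one, map_one]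
        rfl
    · -- a finite set which supports everything
      obtain ⟨S, hS⟩ : ∃ S : Finset V, ∀ x ∈ E ∪ (fun x => g * x * g⁻¹) '' E,
          s.e (S : Set V) x.1.left = x.1.left := by
        classical
        have h1 : ∀ x : s.G, ∃ S : Finset V, s.e (S : Set V) x.left = x.left := fun x =>
          s.finite x.left
        choose F hF using h1
        have hfinE : (E ∪ (fun x => g * x * g⁻¹) '' E).Finite := hE.union (hE.image _)
        refine ⟨hfinE.toFinset.biUnion fun x => F x.1, fun x hx => ?_⟩
        refine e_mono s ?_ (hF x.1)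
        exact_mod_cast Finset.subset_biUnion_of_mem (fun x : sub s (Subgroup.zpowers γ) Set.univ
          (zp_inv hu) => F x.1) (hfinE.mem_toFinset.2 hx)
      refine real_shift hC.base ρ.ker g hCN ((s.e (S : Set V)).comp t0) E hE hEM ?_ ?_
      · intro x hx h1
        apply ht0i
        rw [← h1]
        have h2 : Subgroup.closure (E ∪ (fun x => g * x * g⁻¹) '' E) ≤
            (MonoidHom.eqLocus ((s.e (S : Set V)).comp t0) t0).map ρ.ker.subtype := by
          rw [Subgroup.closure_le]
          intro y hy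
          exact ⟨⟨y, hle (Subgroup.subset_closure hy)⟩, hS y hy, rfl⟩
        obtain ⟨z, hz, hzx⟩ := h2 hx
        have h3 : z = x := Subtype.ext hzx
        rw [← h3]
        exact hz.symm
      · intro x hxE
        obtain ⟨T, hT⟩ := s.finite x.1.1.left
        have hx1 := (hker x.1).1 x.2
        obtain ⟨m, hm⟩ := Subgroup.mem_zpowers_iff.1 g.2.2
        have hbad : {k : ℤ | ∃ v ∈ (S : Set V), g.1.right ^ k • v ∈ (T : Set V) \ Fi γ}.Finite := by
          have h1 : {k : ℤ | ∃ v ∈ (S : Set V), g.1.right ^ k • v ∈ (T : Set V) \ Fi γ} =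
              ⋃ v ∈ (S : Set V), ⋃ w ∈ (T : Set V) \ Fi γ, {k : ℤ | g.1.right ^ k • v = w} := by
            ext k
            simp only [Set.mem_ofPred_eq, Set.mem_iUnion, exists_prop]
            constructor
            · rintro ⟨v, hv, hw⟩
              exact ⟨v, hv, _, hw, rfl⟩
            · rintro ⟨v, hv, w, hw, hk⟩
              exact ⟨v, hv, hk ▸ hw⟩
          rw [h1]
          refine S.finite_toSet.biUnion fun v _ => ?_
          refine (T.finite_toSet.subset Set.sdiff_subset).biUnion fun w hw => ?_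
          refine Set.Subsingleton.finite ?_
          intro k hk l hl
          by_contra hkl
          apply hw.2
          -- `w` has a finite orbit
          have hk' : g.1.right ^ k • v = w := hk
          have hl' : g.1.right ^ l • v = w := hl
          have h2 : g.1.right ^ (k - l) • w = w := by
            have h3 : g.1.right ^ (k - l) • g.1.right ^ l • v = g.1.right ^ k • v := by
              rw [← mul_smul, ← zpow_add, sub_add_cancel]
            rw [hl', hk'] at h3
            exact h3
          rw [← hm, ← zpow_mul] at h2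
          refine mem_Fi (mul_ne_zero ?_ (sub_ne_zero.2 hkl)) h2
          rintro rfl
          rw [zpow_zero] at hm
          exact hg hm.symm
        obtain ⟨B, hB⟩ := (hbad.image Int.natAbs).bddAbove
        refine ⟨B + 1, fun k hk => ?_⟩
        have hkb : ∀ v ∈ (S : Set V), g.1.right ^ k • v ∈ (T : Set V) →
            g.1.right ^ k • v ∈ (Fi γ : Set V) := by
          intro v hv hvT
          by_contra hcon
          have h3 : k.natAbs ≤ B := hB ⟨k, ⟨v, hv, hvT, hcon⟩, rfl⟩
          rw [Int.abs_eq_natAbs] at hk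
          omega
        have hξ : s.e (g.1.right ^ k • (S : Set V)) x.1.1.left = 1 := by
          rw [← hT, s.inter]
          have h4 : g.1.right ^ k • (S : Set V) ∩ T = g.1.right ^ k • (S : Set V) ∩ T ∩ Fi γ := by
            refine (Set.inter_eq_left.2 ?_).symm
            rintro _ ⟨⟨v, hv, rfl⟩, h5⟩
            exact hkb v hv h5
          rw [h4, ← s.inter, hx1.1, map_one]
        change s.e (S : Set V) ((g ^ (-k) * x.1 * g ^ k).1.left) = 1
        have h6 : (g ^ (-k) * x.1 * g ^ k).1 = (g.1 ^ k)⁻¹ * x.1.1 * g.1 ^ k := by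
          rw [zpow_neg]
          rfl
        rw [h6, conj_left s _ _ hx1.2]
        have h7 := s.equivariant ((g.1 ^ k).right)⁻¹ ((g.1 ^ k).right • (S : Set V))
          ((g.1 ^ k).left⁻¹ * x.1.1.left * (g.1 ^ k).left)
        rw [inv_smul_smul] at h7
        have h8 : s.e ((g.1 ^ k).right • (S : Set V))
            ((g.1 ^ k).left⁻¹ * x.1.1.left * (g.1 ^ k).left) = 1 := by
          rw [map_mul, map_mul, pow_right, hξ, mul_one, ← map_mul, inv_mul_cancel, map_one]
        rw [← h7, h8, map_one]

theorem t_sys (hC : ClosedE C) (hΓ : C Γ) (hyp : Hyp s C) : C s.G := by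
  have hCN := C_N s hC hyp
  have hker : ∀ w : s.G, w ∈ (SemidirectProduct.rightHom : s.G →* Γ).ker ↔ w.right = 1 :=
    fun w => Iff.rfl
  refine Pool.Agent.Y529.FJ.t_ext C hC s.G (SemidirectProduct.rightHom : s.G →* Γ).ker ?_ ?_ ?_
  · refine hC.base.of_injective _ _ (lf s (SemidirectProduct.rightHom : s.G →* Γ).ker.subtype
      fun h => (hker h).1 h.2) ?_ hCN
    rw [injective_iff_map_eq_one]
    intro x hx
    apply Subtype.ext
    apply SemidirectProduct.ext
    · exact hx
    · exact (hker x).1 x.2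
  · exact hC.base.of_injective _ _ (QuotientGroup.kerLift _) (QuotientGroup.kerLift_injective _) hΓ
  · intro g _
    have hu : g.right • (Set.univ : Set V) = Set.univ := Set.smul_set_univ
    refine C_le hC.base ?_ (C_cyc s hC hyp g.right hu)
    refine sup_le ?_ ?_
    · intro w hw
      refine ⟨e_univ s _, ?_⟩
      have h1 : w.right = 1 := hw
      rw [h1]
      exact Subgroup.one_mem _
    · rw [Subgroup.zpowers_le]
      exact ⟨e_univ s _, Subgroup.mem_zpowers _⟩

end

end Pool.Agent.T2h60.SF
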