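import Pool.Agent.Y483.PW.Int
import Pool.Agent.R942.FJ.Det
import Pool.Agent.Y417.FJ.Am
import Pool.Agent.Y812.SS.Wr
import Pool.Agent.Y430.SS.Lf

/-!
# Semidirect products with a system of supports: the parts with finite support
-/

set_option autoImplicit false

namespace Pool.Agent.T2h60.SF

open Pool.Agent.Y483.PW Pool.Agent.Y110.FJ Pointwise
open Pool.Agent.Y462.SS (Closed Wr)

variable {C : ∀ (G : Type) [Group G], Prop}

theorem C_le (hC : Closed C) {G : Type} [Group G] {H K : Subgroup G} (h : H ≤ K) (hK : C K) :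
    C H :=
  hC.of_injective _ _ (Subgroup.inclusion h) (Subgroup.inclusion_injective h) hK

/-- a power of a generator generates a subgroup of finite index of a cyclic group -/
theorem rel_zpow {Γ : Type} [Group Γ] (γ : Γ) {k : ℕ} (hk : 0 < k) :
    (Subgroup.zpowers (γ ^ k)).relIndex (Subgroup.zpowers γ) ≠ 0 := by
  have h1 : Subgroup.zpowers γ = (⊤ : Subgroup (Multiplicative ℤ)).map (zpowersHom Γ γ) := by
    ext x
    constructor
    · rintro ⟨m, rfl⟩
      exact ⟨Multiplicative.ofAdd m, trivial, rfl⟩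
    · rintro ⟨m, _, rfl⟩
      exact ⟨m.toAdd, rfl⟩
  rw [h1, ← Subgroup.relIndex_comap, Subgroup.relIndex_top_right]
  have hle : AddSubgroup.toSubgroup (AddSubgroup.zmultiples (k : ℤ)) ≤
      (Subgroup.zpowers (γ ^ k)).comap (zpowersHom Γ γ) := by
    rintro x ⟨m, hm⟩
    refine ⟨m, ?_⟩
    have hm' : m • (k : ℤ) = x.toAdd := hm
    change (γ ^ k) ^ m = γ ^ (x.toAdd)
    rw [← hm', ← zpow_natCast, ← zpow_mul, smul_eq_mul, mul_comm]
  have hidx : (AddSubgroup.toSubgroup (AddSubgroup.zmultiples (k : ℤ))).index ≠ 0 := by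
    rw [AddSubgroup.index_toSubgroup, Int.index_zmultiples, Int.natAbs_natCast]
    exact hk.ne'
  exact ne_zero_of_dvd_ne_zero hidx (Subgroup.index_dvd_of_le hle)

section

variable {Γ N V : Type} [Group Γ] [Group N] [MulAction Γ V] (s : Sys Γ N V)

theorem e_mono {S T : Set V} (h : S ⊆ T) {n : N} (hn : s.e S n = n) : s.e T n = n := by
  have h1 := s.inter T S n
  rw [Set.inter_eq_right.2 h, hn] at h1
  exact h1

theorem e_act {S : Set V} {γ : Γ} (h : γ • S = S) {n : N} (hn : s.e S n = n) :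
    s.e S (s.φ γ n) = s.φ γ n := by
  have h1 := s.equivariant γ S n
  rw [h, hn] at h1
  exact h1.symm

/-- the subgroup of the elements `(n, δ)` with `e_W n = n` and `δ` in `Δ` -/
def sub (Δ : Subgroup Γ) (W : Set V) (h : ∀ δ ∈ Δ, δ • W = W) : Subgroup s.G where
  carrier := {w | s.e W w.left = w.left ∧ w.right ∈ Δ}
  mul_mem' {a b} ha hb := by
    refine ⟨?_, Δ.mul_mem ha.2 hb.2⟩
    rw [SemidirectProduct.mul_left, map_mul, ha.1, e_act s (h _ ha.2) hb.1]
  one_mem' := ⟨map_one _, Δ.one_mem⟩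
  inv_mem' {a} ha := by
    refine ⟨?_, Δ.inv_mem ha.2⟩
    rw [SemidirectProduct.inv_left]
    refine e_act s (h _ (Δ.inv_mem ha.2)) ?_
    rw [map_inv, ha.1]

theorem mem_sub {Δ : Subgroup Γ} {W : Set V} {h : ∀ δ ∈ Δ, δ • W = W} {w : s.G} :
    w ∈ sub s Δ W h ↔ s.e W w.left = w.left ∧ w.right ∈ Δ := Iff.rfl

theorem sub_mono {Δ Δ' : Subgroup Γ} {W W' : Set V} {h : ∀ δ ∈ Δ, δ • W = W}
    {h' : ∀ δ ∈ Δ', δ • W' = W'} (hΔ : Δ ≤ Δ') (hW : W ⊆ W') : sub s Δ W h ≤ sub s Δ' W' h' :=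
  fun _ hw => ⟨e_mono s hW hw.1, hΔ hw.2⟩

/-- the retraction -/
def ret {Δ : Subgroup Γ} {W W' : Set V} (h : ∀ δ ∈ Δ, δ • W = W) (h' : ∀ δ ∈ Δ, δ • W' = W') :
    sub s Δ W h →* sub s Δ W' h' where
  toFun w := ⟨⟨s.e W' w.1.left, w.1.right⟩, by
    refine ⟨?_, w.2.2⟩
    change s.e W' (s.e W' w.1.left) = s.e W' w.1.left
    rw [s.inter, Set.inter_self]⟩
  map_one' := by
    apply Subtype.ext
    apply SemidirectProduct.ext
    · exact map_one (s.e W')
    · rfl
  map_mul' a b := by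
    apply Subtype.ext
    apply SemidirectProduct.ext
    · change s.e W' (a.1.left * s.φ a.1.right b.1.left) =
        s.e W' a.1.left * s.φ a.1.right (s.e W' b.1.left)
      rw [map_mul, s.equivariant, h' _ a.2.2]
    · rfl

theorem ret_fix {Δ : Subgroup Γ} {W W' : Set V} (h : ∀ δ ∈ Δ, δ • W = W)
    (h' : ∀ δ ∈ Δ, δ • W' = W') {w : sub s Δ W h} (hw : s.e W' w.1.left = w.1.left)
    (hw1 : ret s h h' w = 1) : w = 1 := by
  have h1 : (⟨s.e W' w.1.left, w.1.right⟩ : s.G) = 1 := congrArg Subtype.val hw1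
  apply Subtype.ext
  apply SemidirectProduct.ext
  · have h2 : s.e W' w.1.left = 1 := congrArg SemidirectProduct.left h1
    rw [← hw, h2]
    rfl
  · have h3 : w.1.right = 1 := congrArg SemidirectProduct.right h1
    exact h3

end

end Pool.Agent.T2h60.SF
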